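import Mathlib
import Pool.Agent.Lib.MP_04ec84_gt.Basic
import Pool.Agent.Lib.MP_04ec84_gt.Completion

set_option autoImplicit false

open scoped RealInnerProductSpace
open Pool.Agent.Lib.MP_04ec84_gt

namespace Pool.Agent.Results.MP_04ec84_gt.MaxDiam

variable {d : ℕ}

/-- `diam M(K)` is at most any bound on the distances of midpoints. -/
theorem diam_le {K : Set (EuclideanSpace ℝ (Fin d))} {r : ℝ} (hr : 0 ≤ r)
    (h : ∀ x₁ ∈ K, ∀ y₁ ∈ K, ∀ x₂ ∈ K, ∀ y₂ ∈ K, dist x₁ y₁ = 1 → dist x₂ y₂ = 1 →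
      dist (midpoint ℝ x₁ y₁) (midpoint ℝ x₂ y₂) ≤ r) :
    Metric.diam (diametralMidpoints K) ≤ r := by
  apply Metric.diam_le_of_forall_dist_le hr
  rintro _ ⟨x₁, hx₁, y₁, hy₁, h₁, rfl⟩ _ ⟨x₂, hx₂, y₂, hy₂, h₂, rfl⟩
  exact h x₁ hx₁ y₁ hy₁ x₂ hx₂ y₂ hy₂ h₁ h₂

/-- A bounded set of midpoints has diameter at least the distance of any two of its points. -/
theorem le_diam {K : Set (EuclideanSpace ℝ (Fin d))} (hK : IsConstantWidthOne K)
    {x₁ y₁ x₂ y₂ : EuclideanSpace ℝ (Fin d)} (hx₁ : x₁ ∈ K) (hy₁ : y₁ ∈ K) (hx₂ : x₂ ∈ K)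
    (hy₂ : y₂ ∈ K) (h₁ : dist x₁ y₁ = 1) (h₂ : dist x₂ y₂ = 1) :
    dist (midpoint ℝ x₁ y₁) (midpoint ℝ x₂ y₂) ≤ Metric.diam (diametralMidpoints K) := by
  apply Metric.dist_le_diam_of_mem
  · apply hK.1.isBounded.subset
    rintro _ ⟨x, hx, y, hy, -, rfl⟩
    exact hK.2.1.midpoint_mem hx hy
  · exact ⟨x₁, hx₁, y₁, hy₁, h₁, rfl⟩
  · exact ⟨x₂, hx₂, y₂, hy₂, h₂, rfl⟩

theorem upper_bound (K : Set (EuclideanSpace ℝ (Fin d))) (hK : IsConstantWidthOne K) :
    Metric.diam (diametralMidpoints K) ≤ if d = 2 then 1 / 2 else 1 / √2 := by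
  split_ifs with h2
  · subst h2
    apply diam_le (by norm_num)
    intro x₁ hx₁ y₁ hy₁ x₂ hx₂ y₂ hy₂ h₁ h₂
    exact midpoint_dist_le_half_planar h₁ h₂ (hK.dist_le hx₁ hx₂) (hK.dist_le hx₁ hy₂)
      (hK.dist_le hy₁ hx₂) (hK.dist_le hy₁ hy₂)
  · apply diam_le (by positivity)
    intro x₁ hx₁ y₁ hy₁ x₂ hx₂ y₂ hy₂ h₁ h₂
    have h := midpoint_dist_sq_le_half h₁ h₂ (hK.dist_le hx₁ hx₂) (hK.dist_le hx₁ hy₂)
      (hK.dist_le hy₁ hx₂) (hK.dist_le hy₁ hy₂)
    apply le_of_sq_le_sq _ (by positivity)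
    rw [div_pow, Real.sq_sqrt (by norm_num)]
    simpa using h

/-- Squared distance of two linear combinations of three orthonormal vectors. -/
theorem dist_sq_comb {e₀ e₁ e₂ : EuclideanSpace ℝ (Fin d)} (h0 : ⟪e₀, e₀⟫ = 1)
    (h1 : ⟪e₁, e₁⟫ = 1) (h2 : ⟪e₂, e₂⟫ = 1) (h01 : ⟪e₀, e₁⟫ = 0) (h02 : ⟪e₀, e₂⟫ = 0)
    (h12 : ⟪e₁, e₂⟫ = 0) (a b c : ℝ) :
    ‖a • e₀ + b • e₁ + c • e₂‖ ^ 2 = a ^ 2 + b ^ 2 + c ^ 2 := by
  rw [← real_inner_self_eq_norm_sq]
  simp only [inner_add_left, inner_add_right, inner_smul_left, inner_smul_right, conj_trivial,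
    h0, h1, h2, h01, h02, h12, real_inner_comm e₀ e₁, real_inner_comm e₀ e₂,
    real_inner_comm e₁ e₂]
  ring

theorem exists_planar : ∃ K : Set (EuclideanSpace ℝ (Fin 2)), IsConstantWidthOne K ∧
    (1 / 2 : ℝ) ≤ Metric.diam (diametralMidpoints K) := by
  set A : EuclideanSpace ℝ (Fin 2) := !₂[0, 0] with hA
  set B : EuclideanSpace ℝ (Fin 2) := !₂[1, 0] with hB
  set C : EuclideanSpace ℝ (Fin 2) := !₂[1 / 2, √3 / 2] with hC
  have hAB : dist A B = 1 := by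
    rw [EuclideanSpace.dist_eq]
    simp [hA, hB, Real.dist_eq]
  have hAC : dist A C = 1 := by
    rw [EuclideanSpace.dist_eq, Real.sqrt_eq_one]
    simp [hA, hC, Real.dist_eq, div_pow]
    norm_num
  have hBC : dist B C = 1 := by
    rw [EuclideanSpace.dist_eq, Real.sqrt_eq_one]
    simp [hB, hC, Real.dist_eq, div_pow]
    norm_num
  obtain ⟨K, hXK, hK⟩ := exists_constantWidth ({A, B, C} : Set (EuclideanSpace ℝ (Fin 2)))
    ⟨A, by simp⟩ (by
      intro x hx y hy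
      simp only [Set.mem_insert_iff, Set.mem_singleton_iff] at hx hy
      rcases hx with rfl | rfl | rfl <;> rcases hy with rfl | rfl | rfl <;>
        simp [hAB, hAC, hBC, dist_comm B A, dist_comm C A, dist_comm C B])
  refine ⟨K, hK, ?_⟩
  have h := le_diam hK (hXK (show A ∈ ({A, B, C} : Set _) by simp))
    (hXK (show B ∈ ({A, B, C} : Set _) by simp)) (hXK (show A ∈ ({A, B, C} : Set _) by simp))
    (hXK (show C ∈ ({A, B, C} : Set _) by simp)) hAB hAC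
  have h' := four_mul_midpoint_dist_sq A B A C
  rw [hAB, hAC, dist_self, dist_comm B A, hAB, hBC] at h'
  have h'' : dist (midpoint ℝ A B) (midpoint ℝ A C) = 1 / 2 := by
    have hnn := dist_nonneg (x := midpoint ℝ A B) (y := midpoint ℝ A C)
    nlinarith
  rw [h''] at h
  exact h

theorem exists_spatial (hd : 3 ≤ d) : ∃ K : Set (EuclideanSpace ℝ (Fin d)),
    IsConstantWidthOne K ∧ 1 / √2 ≤ Metric.diam (diametralMidpoints K) := by
  set e : Fin d → EuclideanSpace ℝ (Fin d) := fun i => EuclideanSpace.single i (1 : ℝ) with he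
  have hinner : ∀ i j : Fin d, ⟪e i, e j⟫ = if i = j then (1 : ℝ) else 0 := by
    intro i j
    simp [he, EuclideanSpace.inner_single_left]
  have n01 : (⟨0, by omega⟩ : Fin d) ≠ ⟨1, by omega⟩ := by
    intro h; simp at h
  have n02 : (⟨0, by omega⟩ : Fin d) ≠ ⟨2, by omega⟩ := by
    intro h; simp at h
  have n12 : (⟨1, by omega⟩ : Fin d) ≠ ⟨2, by omega⟩ := by
    intro h; simp at h
  set e₀ := e ⟨0, by omega⟩ with he0
  set e₁ := e ⟨1, by omega⟩ with he1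
  set e₂ := e ⟨2, by omega⟩ with he2
  have comb := dist_sq_comb (e₀ := e₀) (e₁ := e₁) (e₂ := e₂) (by rw [he0, hinner, if_pos rfl])
    (by rw [he1, hinner, if_pos rfl]) (by rw [he2, hinner, if_pos rfl])
    (by rw [he0, he1, hinner, if_neg n01]) (by rw [he0, he2, hinner, if_neg n02])
    (by rw [he1, he2, hinner, if_neg n12])
  have hs : (1 / √2 : ℝ) ^ 2 = 1 / 2 := by
    rw [div_pow, Real.sq_sqrt (by norm_num)]; norm_num
  set s : ℝ := 1 / √2 with hsdef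
  set x₁ : EuclideanSpace ℝ (Fin d) := (1 / 2 : ℝ) • e₀ with hx₁
  set y₁ : EuclideanSpace ℝ (Fin d) := (-(1 / 2) : ℝ) • e₀ with hy₁
  set x₂ : EuclideanSpace ℝ (Fin d) := (1 / 2 : ℝ) • e₁ + s • e₂ with hx₂
  set y₂ : EuclideanSpace ℝ (Fin d) := (-(1 / 2) : ℝ) • e₁ + s • e₂ with hy₂
  have key : ∀ p q : EuclideanSpace ℝ (Fin d), ∀ a b c : ℝ, p - q = a • e₀ + b • e₁ + c • e₂ →
      a ^ 2 + b ^ 2 + c ^ 2 = 1 → dist p q = 1 := by
    intro p q a b c h1 h2
    have h3 := comb a b c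
    rw [h2, ← h1] at h3
    rw [dist_eq_norm]
    nlinarith [norm_nonneg (p - q)]
  have d11 : dist x₁ y₁ = 1 := by
    apply key _ _ 1 0 0
    · rw [hx₁, hy₁]; module
    · norm_num
  have d22 : dist x₂ y₂ = 1 := by
    apply key _ _ 0 1 0
    · rw [hx₂, hy₂]; module
    · norm_num
  have dxx : dist x₁ x₂ = 1 := by
    apply key _ _ (1 / 2) (-(1 / 2)) (-s)
    · rw [hx₁, hx₂]; module
    · rw [neg_sq s, hs]; norm_num
  have dxy : dist x₁ y₂ = 1 := by
    apply key _ _ (1 / 2) (1 / 2) (-s)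
    · rw [hx₁, hy₂]; module
    · rw [neg_sq s, hs]; norm_num
  have dyx : dist y₁ x₂ = 1 := by
    apply key _ _ (-(1 / 2)) (-(1 / 2)) (-s)
    · rw [hy₁, hx₂]; module
    · rw [neg_sq s, hs]; norm_num
  have dyy : dist y₁ y₂ = 1 := by
    apply key _ _ (-(1 / 2)) (1 / 2) (-s)
    · rw [hy₁, hy₂]; module
    · rw [neg_sq s, hs]; norm_num
  obtain ⟨K, hXK, hK⟩ := exists_constantWidth
    ({x₁, y₁, x₂, y₂} : Set (EuclideanSpace ℝ (Fin d))) ⟨x₁, by simp⟩ (by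
      intro x hx y hy
      simp only [Set.mem_insert_iff, Set.mem_singleton_iff] at hx hy
      rcases hx with h | h | h | h <;> rcases hy with h' | h' | h' | h' <;> rw [h, h'] <;>
        first
          | (rw [dist_self]; exact zero_le_one)
          | exact (by assumption : dist _ _ = 1).le
          | (rw [dist_comm]; exact (by assumption : dist _ _ = 1).le))
  refine ⟨K, hK, ?_⟩
  have h := le_diam hK (hXK (show x₁ ∈ ({x₁, y₁, x₂, y₂} : Set _) by simp))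
    (hXK (show y₁ ∈ ({x₁, y₁, x₂, y₂} : Set _) by simp))
    (hXK (show x₂ ∈ ({x₁, y₁, x₂, y₂} : Set _) by simp))
    (hXK (show y₂ ∈ ({x₁, y₁, x₂, y₂} : Set _) by simp)) d11 d22
  have h' := four_mul_midpoint_dist_sq x₁ y₁ x₂ y₂
  rw [d11, d22, dxx, dxy, dyx, dyy] at h'
  refine le_trans ?_ h
  apply le_of_sq_le_sq _ dist_nonneg
  rw [hs]
  linarith

/-- **The largest diameter of the midpoint set of diametral chords.** Among all sets `K ⊆ ℝ^d` of
constant width `1`, `d ≥ 2`, the largest value of `diam M(K)` is `1/2` if `d = 2` and `1/√2` if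
`d ≥ 3`; in both cases it is attained. -/
theorem result (d : ℕ) (hd : 2 ≤ d) :
    IsGreatest {r : ℝ | ∃ K : Set (EuclideanSpace ℝ (Fin d)), IsConstantWidthOne K ∧
        r = Metric.diam (diametralMidpoints K)}
      (if d = 2 then 1 / 2 else 1 / √2) := by
  constructor
  · by_cases h2 : d = 2
    · subst h2
      obtain ⟨K, hK, hle⟩ := exists_planar
      refine ⟨K, hK, ?_⟩
      have hup := upper_bound K hK
      rw [if_pos rfl] at hup ⊢
      exact le_antisymm hle hup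
    · obtain ⟨K, hK, hle⟩ := exists_spatial (d := d) (by omega)
      refine ⟨K, hK, ?_⟩
      have hup := upper_bound K hK
      rw [if_neg h2] at hup ⊢
      exact le_antisymm hle hup
  · rintro r ⟨K, hK, rfl⟩
    exact upper_bound K hK

end Pool.Agent.Results.MP_04ec84_gt.MaxDiam
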